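import Pool.Agent.Gen.F5.X123DDCm6.S000

set_option autoImplicit false
set_option maxRecDepth 100000

namespace Pool.Agent.Gen.F5.X123DDCm6

open Pool.Agent.Helper72.F5

def n0 : Cl (O (nat_lit 6)) (R (nat_lit 18641))
    (p (nat_lit 0xc1) (nat_lit 0) (p (nat_lit 0x119) (nat_lit 1) (p (nat_lit 0xd1) (nat_lit 0) (p (nat_lit 0x89) (nat_lit 0) (p (nat_lit 0x41) (nat_lit 0) (p (nat_lit 0x10a0a8908881a) (nat_lit 0) (p (nat_lit 0x898a0888079a) (nat_lit 0) (p (nat_lit 0x108898807871a) (nat_lit 0) (p (nat_lit 0x88090787069a) (nat_lit 0) (p (nat_lit 0x8000080000000080706860a) (nat_lit 0) (p (nat_lit 0x8000080000000070686058a) (nat_lit 0) (p (nat_lit 0x10786058502) (nat_lit 0) (p (nat_lit 0x8705850482) (nat_lit 0) (p (nat_lit 0x160004) (nat_lit 0) (p (nat_lit 0x68512) (nat_lit 0) (p (nat_lit 0x58492) (nat_lit 0) (p (nat_lit 0x48412) (nat_lit 0) (p (nat_lit 0x50312) (nat_lit 0) (p (nat_lit 0x40292) (nat_lit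 0) (p (nat_lit 0x30212) (nat_lit 0) (p (nat_lit 0x38112) (nat_lit 0) (p (nat_lit 0x28092) (nat_lit 0) (p (nat_lit 0x18012) (nat_lit 0) pn))))))))))))))))))))))) :=
  Cl.node (nat_lit 0xc9) (nat_lit 2) (by decide +kernel) (ClAll.succ (ClAll.succ ClAll.zero s2) s3)

def n1 : Cl (O (nat_lit 6)) (R (nat_lit 18641))
    (p (nat_lit 0xc1) (nat_lit 1) (p (nat_lit 0x119) (nat_lit 1) (p (nat_lit 0xd1) (nat_lit 0) (p (nat_lit 0x89) (nat_lit 0) (p (nat_lit 0x41) (nat_lit 0) (p (nat_lit 0x10a0a8908881a) (nat_lit 0) (p (nat_lit 0x898a0888079a) (nat_lit 0) (p (nat_lit 0x108898807871a) (nat_lit 0) (p (nat_lit 0x88090787069a) (nat_lit 0) (p (nat_lit 0x8000080000000080706860a) (nat_lit 0) (p (nat_lit 0x8000080000000070686058a) (nat_lit 0) (p (nat_lit 0x10786058502) (nat_lit 0) (p (nat_lit 0x8705850482) (nat_lit 0) (p (nat_lit 0x160004) (nat_lit 0) (p (nat_lit 0x68512) (nat_lit 0) (p (nat_lit 0x58492) (nat_lit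 0) (p (nat_lit 0x48412) (nat_lit 0) (p (nat_lit 0x50312) (nat_lit 0) (p (nat_lit 0x40292) (nat_lit 0) (p (nat_lit 0x30212) (nat_lit 0) (p (nat_lit 0x38112) (nat_lit 0) (p (nat_lit 0x28092) (nat_lit 0) (p (nat_lit 0x18012) (nat_lit 0) pn))))))))))))))))))))))) :=
  Cl.node (nat_lit 0x81) (nat_lit 2) (by decide +kernel) (ClAll.succ (ClAll.succ ClAll.zero s4) s5)

def n2 : Cl (O (nat_lit 6)) (R (nat_lit 18641))
    (p (nat_lit 0x101) (nat_lit 1) (p (nat_lit 0x111) (nat_lit 0) (p (nat_lit 0xd1) (nat_lit 1) (p (nat_lit 0x89) (nat_lit 0) (p (nat_lit 0x41) (nat_lit 0) (p (nat_lit 0x10a0a8908881a) (nat_lit 0) (p (nat_lit 0x898a0888079a) (nat_lit 0) (p (nat_lit 0x108898807871a) (nat_lit 0) (p (nat_lit 0x88090787069a) (nat_lit 0) (p (nat_lit 0x8000080000000080706860a) (nat_lit 0) (p (nat_lit 0x8000080000000070686058a) (nat_lit 0) (p (nat_lit 0x10786058502) (nat_lit 0) (p (nat_lit 0x8705850482) (nat_lit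 0) (p (nat_lit 0x160004) (nat_lit 0) (p (nat_lit 0x68512) (nat_lit 0) (p (nat_lit 0x58492) (nat_lit 0) (p (nat_lit 0x48412) (nat_lit 0) (p (nat_lit 0x50312) (nat_lit 0) (p (nat_lit 0x40292) (nat_lit 0) (p (nat_lit 0x30212) (nat_lit 0) (p (nat_lit 0x38112) (nat_lit 0) (p (nat_lit 0x28092) (nat_lit 0) (p (nat_lit 0x18012) (nat_lit 0) pn))))))))))))))))))))))) :=
  Cl.node (nat_lit 0x81) (nat_lit 2) (by decide +kernel) (ClAll.succ (ClAll.succ ClAll.zero s7) s8)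

def n3 : Cl (O (nat_lit 6)) (R (nat_lit 18641))
    (p (nat_lit 0xc1) (nat_lit 1) (p (nat_lit 0x119) (nat_lit 1) (p (nat_lit 0xd1) (nat_lit 0) (p (nat_lit 0x81) (nat_lit 0) (p (nat_lit 0x41) (nat_lit 1) (p (nat_lit 0x10a0a8908881a) (nat_lit 0) (p (nat_lit 0x898a0888079a) (nat_lit 0) (p (nat_lit 0x108898807871a) (nat_lit 0) (p (nat_lit 0x88090787069a) (nat_lit 0) (p (nat_lit 0x8000080000000080706860a) (nat_lit 0) (p (nat_lit 0x8000080000000070686058a) (nat_lit 0) (p (nat_lit 0x10786058502) (nat_lit 0) (p (nat_lit 0x8705850482) (nat_lit 0) (p (nat_lit 0x160004) (nat_lit 0) (p (nat_lit 0x68512) (nat_lit 0) (p (nat_lit 0x58492) (nat_lit 0) (p (nat_lit 0x48412) (nat_lit 0) (p (nat_lit 0x50312) (nat_lit 0) (p (nat_lit 0x40292) (nat_lit 0) (p (nat_lit 0x30212) (nat_lit 0) (p (nat_lit 0x38112) (nat_lit 0) (p (nat_lit 0x28092) (nat_lit 0) (p (nat_lit 0x18012) (nat_lit 0) pn)))))))))))))))))))))))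 :=
  Cl.node (nat_lit 0x101) (nat_lit 2) (by decide +kernel) (ClAll.succ (ClAll.succ ClAll.zero s17) s18)

def n4 : Cl (O (nat_lit 6)) (R (nat_lit 18641))
    (p (nat_lit 0x119) (nat_lit 0) (p (nat_lit 0xd1) (nat_lit 0) (p (nat_lit 0x89) (nat_lit 0) (p (nat_lit 0x41) (nat_lit 0) (p (nat_lit 0x10a0a8908881a) (nat_lit 0) (p (nat_lit 0x898a0888079a) (nat_lit 0) (p (nat_lit 0x108898807871a) (nat_lit 0) (p (nat_lit 0x88090787069a) (nat_lit 0) (p (nat_lit 0x8000080000000080706860a) (nat_lit 0) (p (nat_lit 0x8000080000000070686058a) (nat_lit 0) (p (nat_lit 0x10786058502) (nat_lit 0) (p (nat_lit 0x8705850482) (nat_lit 0) (p (nat_lit 0x160004) (nat_lit 0) (p (nat_lit 0x68512) (nat_lit 0) (p (nat_lit 0x58492) (nat_lit 0) (p (nat_lit 0x48412) (nat_lit 0) (p (nat_lit 0x50312) (nat_lit 0) (p (nat_lit 0x40292) (nat_lit 0) (p (nat_lit 0x30212) (nat_lit 0) (p (nat_lit 0x38112) (nat_lit 0) (p (nat_lit 0x28092)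 (nat_lit 0) (p (nat_lit 0x18012) (nat_lit 0) pn)))))))))))))))))))))) :=
  Cl.node (nat_lit 0x101) (nat_lit 2) (by decide +kernel) (ClAll.succ (ClAll.succ ClAll.zero s0) s1)

def n5 : Cl (O (nat_lit 6)) (R (nat_lit 18641))
    (p (nat_lit 0x119) (nat_lit 1) (p (nat_lit 0xd1) (nat_lit 0) (p (nat_lit 0x89) (nat_lit 0) (p (nat_lit 0x41) (nat_lit 0) (p (nat_lit 0x10a0a8908881a) (nat_lit 0) (p (nat_lit 0x898a0888079a) (nat_lit 0) (p (nat_lit 0x108898807871a) (nat_lit 0) (p (nat_lit 0x88090787069a) (nat_lit 0) (p (nat_lit 0x8000080000000080706860a) (nat_lit 0) (p (nat_lit 0x8000080000000070686058a) (nat_lit 0) (p (nat_lit 0x10786058502) (nat_lit 0) (p (nat_lit 0x8705850482) (nat_lit 0) (p (nat_lit 0x160004) (nat_lit 0) (p (nat_lit 0x68512) (nat_lit 0) (p (nat_lit 0x58492) (nat_lit 0) (p (nat_lit 0x48412) (nat_lit 0) (p (nat_lit 0x50312) (nat_lit 0) (p (nat_lit 0x40292) (nat_lit 0) (p (nat_lit 0x30212)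 (nat_lit 0) (p (nat_lit 0x38112) (nat_lit 0) (p (nat_lit 0x28092) (nat_lit 0) (p (nat_lit 0x18012) (nat_lit 0) pn)))))))))))))))))))))) :=
  Cl.node (nat_lit 0xc1) (nat_lit 2) (by decide +kernel) (ClAll.succ (ClAll.succ ClAll.zero n0) n1)

def n6 : Cl (O (nat_lit 6)) (R (nat_lit 18641))
    (p (nat_lit 0x111) (nat_lit 0) (p (nat_lit 0xd1) (nat_lit 1) (p (nat_lit 0x89) (nat_lit 0) (p (nat_lit 0x41) (nat_lit 0) (p (nat_lit 0x10a0a8908881a) (nat_lit 0) (p (nat_lit 0x898a0888079a) (nat_lit 0) (p (nat_lit 0x108898807871a) (nat_lit 0) (p (nat_lit 0x88090787069a) (nat_lit 0) (p (nat_lit 0x8000080000000080706860a) (nat_lit 0) (p (nat_lit 0x8000080000000070686058a) (nat_lit 0) (p (nat_lit 0x10786058502) (nat_lit 0) (p (nat_lit 0x8705850482) (nat_lit 0) (p (nat_lit 0x160004) (nat_lit 0) (p (nat_lit 0x68512) (nat_lit 0) (p (nat_lit 0x58492) (nat_lit 0) (p (nat_lit 0x48412) (nat_lit 0) (p (nat_lit 0x50312)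 (nat_lit 0) (p (nat_lit 0x40292) (nat_lit 0) (p (nat_lit 0x30212) (nat_lit 0) (p (nat_lit 0x38112) (nat_lit 0) (p (nat_lit 0x28092) (nat_lit 0) (p (nat_lit 0x18012) (nat_lit 0) pn)))))))))))))))))))))) :=
  Cl.node (nat_lit 0x101) (nat_lit 2) (by decide +kernel) (ClAll.succ (ClAll.succ ClAll.zero s6) n2)

def n7 : Cl (O (nat_lit 6)) (R (nat_lit 18641))
    (p (nat_lit 0x119) (nat_lit 0) (p (nat_lit 0xc9) (nat_lit 0) (p (nat_lit 0x89) (nat_lit 1) (p (nat_lit 0x41) (nat_lit 0) (p (nat_lit 0x10a0a8908881a) (nat_lit 0) (p (nat_lit 0x898a0888079a) (nat_lit 0) (p (nat_lit 0x108898807871a) (nat_lit 0) (p (nat_lit 0x88090787069a) (nat_lit 0) (p (nat_lit 0x8000080000000080706860a) (nat_lit 0) (p (nat_lit 0x8000080000000070686058a) (nat_lit 0) (p (nat_lit 0x10786058502) (nat_lit 0) (p (nat_lit 0x8705850482) (nat_lit 0) (p (nat_lit 0x160004) (nat_lit 0) (p (nat_lit 0x68512) (nat_lit 0) (p (nat_lit 0x58492)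 (nat_lit 0) (p (nat_lit 0x48412) (nat_lit 0) (p (nat_lit 0x50312) (nat_lit 0) (p (nat_lit 0x40292) (nat_lit 0) (p (nat_lit 0x30212) (nat_lit 0) (p (nat_lit 0x38112) (nat_lit 0) (p (nat_lit 0x28092) (nat_lit 0) (p (nat_lit 0x18012) (nat_lit 0) pn)))))))))))))))))))))) :=
  Cl.node (nat_lit 0x101) (nat_lit 2) (by decide +kernel) (ClAll.succ (ClAll.succ ClAll.zero s10) s11)

def n8 : Cl (O (nat_lit 6)) (R (nat_lit 18641))
    (p (nat_lit 0x119) (nat_lit 0) (p (nat_lit 0xd1) (nat_lit 0) (p (nat_lit 0x81) (nat_lit 0) (p (nat_lit 0x41) (nat_lit 1) (p (nat_lit 0x10a0a8908881a) (nat_lit 0) (p (nat_lit 0x898a0888079a) (nat_lit 0) (p (nat_lit 0x108898807871a) (nat_lit 0) (p (nat_lit 0x88090787069a) (nat_lit 0) (p (nat_lit 0x8000080000000080706860a) (nat_lit 0) (p (nat_lit 0x8000080000000070686058a) (nat_lit 0) (p (nat_lit 0x10786058502) (nat_lit 0) (p (nat_lit 0x8705850482) (nat_lit 0) (p (nat_lit 0x160004)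 (nat_lit 0) (p (nat_lit 0x68512) (nat_lit 0) (p (nat_lit 0x58492) (nat_lit 0) (p (nat_lit 0x48412) (nat_lit 0) (p (nat_lit 0x50312) (nat_lit 0) (p (nat_lit 0x40292) (nat_lit 0) (p (nat_lit 0x30212) (nat_lit 0) (p (nat_lit 0x38112) (nat_lit 0) (p (nat_lit 0x28092) (nat_lit 0) (p (nat_lit 0x18012) (nat_lit 0) pn)))))))))))))))))))))) :=
  Cl.node (nat_lit 0x101) (nat_lit 2) (by decide +kernel) (ClAll.succ (ClAll.succ ClAll.zero s14) s15)

def n9 : Cl (O (nat_lit 6)) (R (nat_lit 18641))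
    (p (nat_lit 0x119) (nat_lit 1) (p (nat_lit 0xd1) (nat_lit 0) (p (nat_lit 0x81) (nat_lit 0) (p (nat_lit 0x41) (nat_lit 1) (p (nat_lit 0x10a0a8908881a) (nat_lit 0) (p (nat_lit 0x898a0888079a) (nat_lit 0) (p (nat_lit 0x108898807871a) (nat_lit 0) (p (nat_lit 0x88090787069a) (nat_lit 0) (p (nat_lit 0x8000080000000080706860a) (nat_lit 0) (p (nat_lit 0x8000080000000070686058a) (nat_lit 0) (p (nat_lit 0x10786058502) (nat_lit 0) (p (nat_lit 0x8705850482) (nat_lit 0) (p (nat_lit 0x160004) (nat_lit 0) (p (nat_lit 0x68512) (nat_lit 0) (p (nat_lit 0x58492) (nat_lit 0) (p (nat_lit 0x48412) (nat_lit 0) (p (nat_lit 0x50312) (nat_lit 0) (p (nat_lit 0x40292) (nat_lit 0) (p (nat_lit 0x30212) (nat_lit 0) (p (nat_lit 0x38112) (nat_lit 0) (p (nat_lit 0x28092) (nat_lit 0) (p (nat_lit 0x18012) (nat_lit 0) pn)))))))))))))))))))))) :=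
  Cl.node (nat_lit 0xc1) (nat_lit 2) (by decide +kernel) (ClAll.succ (ClAll.succ ClAll.zero s16) n3)

def n10 : Cl (O (nat_lit 6)) (R (nat_lit 18641))
    (p (nat_lit 0x111) (nat_lit 0) (p (nat_lit 0xd1) (nat_lit 1) (p (nat_lit 0x81) (nat_lit 0) (p (nat_lit 0x41) (nat_lit 1) (p (nat_lit 0x10a0a8908881a) (nat_lit 0) (p (nat_lit 0x898a0888079a) (nat_lit 0) (p (nat_lit 0x108898807871a) (nat_lit 0) (p (nat_lit 0x88090787069a) (nat_lit 0) (p (nat_lit 0x8000080000000080706860a) (nat_lit 0) (p (nat_lit 0x8000080000000070686058a) (nat_lit 0) (p (nat_lit 0x10786058502) (nat_lit 0) (p (nat_lit 0x8705850482) (nat_lit 0) (p (nat_lit 0x160004) (nat_lit 0) (p (nat_lit 0x68512) (nat_lit 0) (p (nat_lit 0x58492) (nat_lit 0) (p (nat_lit 0x48412) (nat_lit 0) (p (nat_lit 0x50312) (nat_lit 0) (p (nat_lit 0x40292) (nat_lit 0) (p (nat_lit 0x30212) (nat_lit 0) (p (nat_lit 0x38112) (nat_lit 0) (p (nat_lit 0x28092)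 (nat_lit 0) (p (nat_lit 0x18012) (nat_lit 0) pn)))))))))))))))))))))) :=
  Cl.node (nat_lit 0x101) (nat_lit 2) (by decide +kernel) (ClAll.succ (ClAll.succ ClAll.zero s19) s20)

def n11 : Cl (O (nat_lit 6)) (R (nat_lit 18641))
    (p (nat_lit 0xd1) (nat_lit 0) (p (nat_lit 0x89) (nat_lit 0) (p (nat_lit 0x41) (nat_lit 0) (p (nat_lit 0x10a0a8908881a) (nat_lit 0) (p (nat_lit 0x898a0888079a) (nat_lit 0) (p (nat_lit 0x108898807871a) (nat_lit 0) (p (nat_lit 0x88090787069a) (nat_lit 0) (p (nat_lit 0x8000080000000080706860a) (nat_lit 0) (p (nat_lit 0x8000080000000070686058a) (nat_lit 0) (p (nat_lit 0x10786058502) (nat_lit 0) (p (nat_lit 0x8705850482) (nat_lit 0) (p (nat_lit 0x160004) (nat_lit 0) (p (nat_lit 0x68512) (nat_lit 0) (p (nat_lit 0x58492) (nat_lit 0) (p (nat_lit 0x48412) (nat_lit 0) (p (nat_lit 0x50312) (nat_lit 0) (p (nat_lit 0x40292) (nat_lit 0) (p (nat_lit 0x30212) (nat_lit 0) (p (nat_lit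 0x38112) (nat_lit 0) (p (nat_lit 0x28092) (nat_lit 0) (p (nat_lit 0x18012) (nat_lit 0) pn))))))))))))))))))))) :=
  Cl.node (nat_lit 0x119) (nat_lit 2) (by decide +kernel) (ClAll.succ (ClAll.succ ClAll.zero n4) n5)

def n12 : Cl (O (nat_lit 6)) (R (nat_lit 18641))
    (p (nat_lit 0xd1) (nat_lit 1) (p (nat_lit 0x89) (nat_lit 0) (p (nat_lit 0x41) (nat_lit 0) (p (nat_lit 0x10a0a8908881a) (nat_lit 0) (p (nat_lit 0x898a0888079a) (nat_lit 0) (p (nat_lit 0x108898807871a) (nat_lit 0) (p (nat_lit 0x88090787069a) (nat_lit 0) (p (nat_lit 0x8000080000000080706860a) (nat_lit 0) (p (nat_lit 0x8000080000000070686058a) (nat_lit 0) (p (nat_lit 0x10786058502) (nat_lit 0) (p (nat_lit 0x8705850482) (nat_lit 0) (p (nat_lit 0x160004) (nat_lit 0) (p (nat_lit 0x68512) (nat_lit 0) (p (nat_lit 0x58492) (nat_lit 0) (p (nat_lit 0x48412) (nat_lit 0) (p (nat_lit 0x50312) (nat_lit 0) (p (nat_lit 0x40292) (nat_lit 0) (p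 (nat_lit 0x30212) (nat_lit 0) (p (nat_lit 0x38112) (nat_lit 0) (p (nat_lit 0x28092) (nat_lit 0) (p (nat_lit 0x18012) (nat_lit 0) pn))))))))))))))))))))) :=
  Cl.node (nat_lit 0x111) (nat_lit 2) (by decide +kernel) (ClAll.succ (ClAll.succ ClAll.zero n6) s9)

def n13 : Cl (O (nat_lit 6)) (R (nat_lit 18641))
    (p (nat_lit 0xc9) (nat_lit 0) (p (nat_lit 0x89) (nat_lit 1) (p (nat_lit 0x41) (nat_lit 0) (p (nat_lit 0x10a0a8908881a) (nat_lit 0) (p (nat_lit 0x898a0888079a) (nat_lit 0) (p (nat_lit 0x108898807871a) (nat_lit 0) (p (nat_lit 0x88090787069a) (nat_lit 0) (p (nat_lit 0x8000080000000080706860a) (nat_lit 0) (p (nat_lit 0x8000080000000070686058a) (nat_lit 0) (p (nat_lit 0x10786058502) (nat_lit 0) (p (nat_lit 0x8705850482) (nat_lit 0) (p (nat_lit 0x160004) (nat_lit 0) (p (nat_lit 0x68512) (nat_lit 0) (p (nat_lit 0x58492) (nat_lit 0) (p (nat_lit 0x48412) (nat_lit 0) (p (nat_lit 0x50312) (nat_lit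 0) (p (nat_lit 0x40292) (nat_lit 0) (p (nat_lit 0x30212) (nat_lit 0) (p (nat_lit 0x38112) (nat_lit 0) (p (nat_lit 0x28092) (nat_lit 0) (p (nat_lit 0x18012) (nat_lit 0) pn))))))))))))))))))))) :=
  Cl.node (nat_lit 0x119) (nat_lit 2) (by decide +kernel) (ClAll.succ (ClAll.succ ClAll.zero n7) s12)

def n14 : Cl (O (nat_lit 6)) (R (nat_lit 18641))
    (p (nat_lit 0xd1) (nat_lit 0) (p (nat_lit 0x81) (nat_lit 0) (p (nat_lit 0x41) (nat_lit 1) (p (nat_lit 0x10a0a8908881a) (nat_lit 0) (p (nat_lit 0x898a0888079a) (nat_lit 0) (p (nat_lit 0x108898807871a) (nat_lit 0) (p (nat_lit 0x88090787069a) (nat_lit 0) (p (nat_lit 0x8000080000000080706860a) (nat_lit 0) (p (nat_lit 0x8000080000000070686058a) (nat_lit 0) (p (nat_lit 0x10786058502) (nat_lit 0) (p (nat_lit 0x8705850482) (nat_lit 0) (p (nat_lit 0x160004) (nat_lit 0) (p (nat_lit 0x68512) (nat_lit 0) (p (nat_lit 0x58492) (nat_lit 0) (p (nat_lit 0x48412)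 (nat_lit 0) (p (nat_lit 0x50312) (nat_lit 0) (p (nat_lit 0x40292) (nat_lit 0) (p (nat_lit 0x30212) (nat_lit 0) (p (nat_lit 0x38112) (nat_lit 0) (p (nat_lit 0x28092) (nat_lit 0) (p (nat_lit 0x18012) (nat_lit 0) pn))))))))))))))))))))) :=
  Cl.node (nat_lit 0x119) (nat_lit 2) (by decide +kernel) (ClAll.succ (ClAll.succ ClAll.zero n8) n9)

def n15 : Cl (O (nat_lit 6)) (R (nat_lit 18641))
    (p (nat_lit 0xd1) (nat_lit 1) (p (nat_lit 0x81) (nat_lit 0) (p (nat_lit 0x41) (nat_lit 1) (p (nat_lit 0x10a0a8908881a) (nat_lit 0) (p (nat_lit 0x898a0888079a) (nat_lit 0) (p (nat_lit 0x108898807871a) (nat_lit 0) (p (nat_lit 0x88090787069a) (nat_lit 0) (p (nat_lit 0x8000080000000080706860a) (nat_lit 0) (p (nat_lit 0x8000080000000070686058a) (nat_lit 0) (p (nat_lit 0x10786058502) (nat_lit 0) (p (nat_lit 0x8705850482) (nat_lit 0) (p (nat_lit 0x160004) (nat_lit 0) (p (nat_lit 0x68512) (nat_lit 0) (p (nat_lit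 0x58492) (nat_lit 0) (p (nat_lit 0x48412) (nat_lit 0) (p (nat_lit 0x50312) (nat_lit 0) (p (nat_lit 0x40292) (nat_lit 0) (p (nat_lit 0x30212) (nat_lit 0) (p (nat_lit 0x38112) (nat_lit 0) (p (nat_lit 0x28092) (nat_lit 0) (p (nat_lit 0x18012) (nat_lit 0) pn))))))))))))))))))))) :=
  Cl.node (nat_lit 0x111) (nat_lit 2) (by decide +kernel) (ClAll.succ (ClAll.succ ClAll.zero n10) s21)

def n16 : Cl (O (nat_lit 6)) (R (nat_lit 18641))
    (p (nat_lit 0xc1) (nat_lit 0) (p (nat_lit 0x81) (nat_lit 1) (p (nat_lit 0x41) (nat_lit 1) (p (nat_lit 0x10a0a8908881a) (nat_lit 0) (p (nat_lit 0x898a0888079a) (nat_lit 0) (p (nat_lit 0x108898807871a) (nat_lit 0) (p (nat_lit 0x88090787069a) (nat_lit 0) (p (nat_lit 0x8000080000000080706860a) (nat_lit 0) (p (nat_lit 0x8000080000000070686058a) (nat_lit 0) (p (nat_lit 0x10786058502) (nat_lit 0) (p (nat_lit 0x8705850482) (nat_lit 0) (p (nat_lit 0x160004) (nat_lit 0) (p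 (nat_lit 0x68512) (nat_lit 0) (p (nat_lit 0x58492) (nat_lit 0) (p (nat_lit 0x48412) (nat_lit 0) (p (nat_lit 0x50312) (nat_lit 0) (p (nat_lit 0x40292) (nat_lit 0) (p (nat_lit 0x30212) (nat_lit 0) (p (nat_lit 0x38112) (nat_lit 0) (p (nat_lit 0x28092) (nat_lit 0) (p (nat_lit 0x18012) (nat_lit 0) pn))))))))))))))))))))) :=
  Cl.node (nat_lit 0x119) (nat_lit 2) (by decide +kernel) (ClAll.succ (ClAll.succ ClAll.zero s22) s23)

def n17 : Cl (O (nat_lit 6)) (R (nat_lit 18641))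
    (p (nat_lit 0x89) (nat_lit 0) (p (nat_lit 0x41) (nat_lit 0) (p (nat_lit 0x10a0a8908881a) (nat_lit 0) (p (nat_lit 0x898a0888079a) (nat_lit 0) (p (nat_lit 0x108898807871a) (nat_lit 0) (p (nat_lit 0x88090787069a) (nat_lit 0) (p (nat_lit 0x8000080000000080706860a) (nat_lit 0) (p (nat_lit 0x8000080000000070686058a) (nat_lit 0) (p (nat_lit 0x10786058502) (nat_lit 0) (p (nat_lit 0x8705850482) (nat_lit 0) (p (nat_lit 0x160004) (nat_lit 0) (p (nat_lit 0x68512) (nat_lit 0) (p (nat_lit 0x58492) (nat_lit 0) (p (nat_lit 0x48412) (nat_lit 0) (p (nat_lit 0x50312) (nat_lit 0) (p (nat_lit 0x40292) (nat_lit 0) (p (nat_lit 0x30212) (nat_lit 0) (p (nat_lit 0x38112) (nat_lit 0) (p (nat_lit 0x28092) (nat_lit 0) (p (nat_lit 0x18012) (nat_lit 0) pn)))))))))))))))))))) :=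
  Cl.node (nat_lit 0xd1) (nat_lit 2) (by decide +kernel) (ClAll.succ (ClAll.succ ClAll.zero n11) n12)

def n18 : Cl (O (nat_lit 6)) (R (nat_lit 18641))
    (p (nat_lit 0x89) (nat_lit 1) (p (nat_lit 0x41) (nat_lit 0) (p (nat_lit 0x10a0a8908881a) (nat_lit 0) (p (nat_lit 0x898a0888079a) (nat_lit 0) (p (nat_lit 0x108898807871a) (nat_lit 0) (p (nat_lit 0x88090787069a) (nat_lit 0) (p (nat_lit 0x8000080000000080706860a) (nat_lit 0) (p (nat_lit 0x8000080000000070686058a) (nat_lit 0) (p (nat_lit 0x10786058502) (nat_lit 0) (p (nat_lit 0x8705850482) (nat_lit 0) (p (nat_lit 0x160004) (nat_lit 0) (p (nat_lit 0x68512) (nat_lit 0) (p (nat_lit 0x58492) (nat_lit 0) (p (nat_lit 0x48412) (nat_lit 0) (p (nat_lit 0x50312) (nat_lit 0) (p (nat_lit 0x40292) (nat_lit 0) (p (nat_lit 0x30212) (nat_lit 0) (p (nat_lit 0x38112) (nat_lit 0) (p (nat_lit 0x28092) (nat_lit 0) (p (nat_lit 0x18012) (nat_lit 0) pn))))))))))))))))))))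 :=
  Cl.node (nat_lit 0xc9) (nat_lit 2) (by decide +kernel) (ClAll.succ (ClAll.succ ClAll.zero n13) s13)

def n19 : Cl (O (nat_lit 6)) (R (nat_lit 18641))
    (p (nat_lit 0x81) (nat_lit 0) (p (nat_lit 0x41) (nat_lit 1) (p (nat_lit 0x10a0a8908881a) (nat_lit 0) (p (nat_lit 0x898a0888079a) (nat_lit 0) (p (nat_lit 0x108898807871a) (nat_lit 0) (p (nat_lit 0x88090787069a) (nat_lit 0) (p (nat_lit 0x8000080000000080706860a) (nat_lit 0) (p (nat_lit 0x8000080000000070686058a) (nat_lit 0) (p (nat_lit 0x10786058502) (nat_lit 0) (p (nat_lit 0x8705850482) (nat_lit 0) (p (nat_lit 0x160004) (nat_lit 0) (p (nat_lit 0x68512) (nat_lit 0) (p (nat_lit 0x58492) (nat_lit 0) (p (nat_lit 0x48412) (nat_lit 0) (p (nat_lit 0x50312) (nat_lit 0) (p (nat_lit 0x40292) (nat_lit 0) (p (nat_lit 0x30212) (nat_lit 0) (p (nat_lit 0x38112) (nat_lit 0) (p (nat_lit 0x28092) (nat_lit 0) (p (nat_lit 0x18012) (nat_lit 0) pn))))))))))))))))))))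 :=
  Cl.node (nat_lit 0xd1) (nat_lit 2) (by decide +kernel) (ClAll.succ (ClAll.succ ClAll.zero n14) n15)

def n20 : Cl (O (nat_lit 6)) (R (nat_lit 18641))
    (p (nat_lit 0x81) (nat_lit 1) (p (nat_lit 0x41) (nat_lit 1) (p (nat_lit 0x10a0a8908881a) (nat_lit 0) (p (nat_lit 0x898a0888079a) (nat_lit 0) (p (nat_lit 0x108898807871a) (nat_lit 0) (p (nat_lit 0x88090787069a) (nat_lit 0) (p (nat_lit 0x8000080000000080706860a) (nat_lit 0) (p (nat_lit 0x8000080000000070686058a) (nat_lit 0) (p (nat_lit 0x10786058502) (nat_lit 0) (p (nat_lit 0x8705850482) (nat_lit 0) (p (nat_lit 0x160004) (nat_lit 0) (p (nat_lit 0x68512) (nat_lit 0) (p (nat_lit 0x58492) (nat_lit 0) (p (nat_lit 0x48412) (nat_lit 0) (p (nat_lit 0x50312) (nat_lit 0) (p (nat_lit 0x40292) (nat_lit 0) (p (nat_lit 0x30212) (nat_lit 0) (p (nat_lit 0x38112) (nat_lit 0) (p (nat_lit 0x28092) (nat_lit 0) (p (nat_lit 0x18012) (nat_lit 0) pn))))))))))))))))))))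 :=
  Cl.node (nat_lit 0xc1) (nat_lit 2) (by decide +kernel) (ClAll.succ (ClAll.succ ClAll.zero n16) s24)

def n21 : Cl (O (nat_lit 6)) (R (nat_lit 18641))
    (p (nat_lit 0x41) (nat_lit 0) (p (nat_lit 0x10a0a8908881a) (nat_lit 0) (p (nat_lit 0x898a0888079a) (nat_lit 0) (p (nat_lit 0x108898807871a) (nat_lit 0) (p (nat_lit 0x88090787069a) (nat_lit 0) (p (nat_lit 0x8000080000000080706860a) (nat_lit 0) (p (nat_lit 0x8000080000000070686058a) (nat_lit 0) (p (nat_lit 0x10786058502) (nat_lit 0) (p (nat_lit 0x8705850482) (nat_lit 0) (p (nat_lit 0x160004) (nat_lit 0) (p (nat_lit 0x68512) (nat_lit 0) (p (nat_lit 0x58492) (nat_lit 0) (p (nat_lit 0x48412) (nat_lit 0) (p (nat_lit 0x50312) (nat_lit 0) (p (nat_lit 0x40292) (nat_lit 0) (p (nat_lit 0x30212) (nat_lit 0) (p (nat_lit 0x38112) (nat_lit 0) (p (nat_lit 0x28092) (nat_lit 0) (p (nat_lit 0x18012) (nat_lit 0) pn))))))))))))))))))) :=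
  Cl.node (nat_lit 0x89) (nat_lit 2) (by decide +kernel) (ClAll.succ (ClAll.succ ClAll.zero n17) n18)

def n22 : Cl (O (nat_lit 6)) (R (nat_lit 18641))
    (p (nat_lit 0x41) (nat_lit 1) (p (nat_lit 0x10a0a8908881a) (nat_lit 0) (p (nat_lit 0x898a0888079a) (nat_lit 0) (p (nat_lit 0x108898807871a) (nat_lit 0) (p (nat_lit 0x88090787069a) (nat_lit 0) (p (nat_lit 0x8000080000000080706860a) (nat_lit 0) (p (nat_lit 0x8000080000000070686058a) (nat_lit 0) (p (nat_lit 0x10786058502) (nat_lit 0) (p (nat_lit 0x8705850482) (nat_lit 0) (p (nat_lit 0x160004) (nat_lit 0) (p (nat_lit 0x68512) (nat_lit 0) (p (nat_lit 0x58492) (nat_lit 0) (p (nat_lit 0x48412) (nat_lit 0) (p (nat_lit 0x50312) (nat_lit 0) (p (nat_lit 0x40292) (nat_lit 0) (p (nat_lit 0x30212) (nat_lit 0) (p (nat_lit 0x38112) (nat_lit 0) (p (nat_lit 0x28092) (nat_lit 0) (p (nat_lit 0x18012) (nat_lit 0) pn))))))))))))))))))) :=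
  Cl.node (nat_lit 0x81) (nat_lit 2) (by decide +kernel) (ClAll.succ (ClAll.succ ClAll.zero n19) n20)

def n23 : Cl (O (nat_lit 6)) (R (nat_lit 18641))
    (p (nat_lit 0x10a0a8908881a) (nat_lit 0) (p (nat_lit 0x898a0888079a) (nat_lit 0) (p (nat_lit 0x108898807871a) (nat_lit 0) (p (nat_lit 0x88090787069a) (nat_lit 0) (p (nat_lit 0x8000080000000080706860a) (nat_lit 0) (p (nat_lit 0x8000080000000070686058a) (nat_lit 0) (p (nat_lit 0x10786058502) (nat_lit 0) (p (nat_lit 0x8705850482) (nat_lit 0) (p (nat_lit 0x160004) (nat_lit 0) (p (nat_lit 0x68512) (nat_lit 0) (p (nat_lit 0x58492) (nat_lit 0) (p (nat_lit 0x48412) (nat_lit 0) (p (nat_lit 0x50312) (nat_lit 0) (p (nat_lit 0x40292) (nat_lit 0) (p (nat_lit 0x30212) (nat_lit 0) (p (nat_lit 0x38112) (nat_lit 0) (p (nat_lit 0x28092) (nat_lit 0) (p (nat_lit 0x18012) (nat_lit 0) pn)))))))))))))))))) :=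
  Cl.node (nat_lit 0x41) (nat_lit 2) (by decide +kernel) (ClAll.succ (ClAll.succ ClAll.zero n21) n22)

def n24 : Cl (O (nat_lit 6)) (R (nat_lit 18641))
    (p (nat_lit 0x898a0888079a) (nat_lit 0) (p (nat_lit 0x108898807871a) (nat_lit 0) (p (nat_lit 0x88090787069a) (nat_lit 0) (p (nat_lit 0x8000080000000080706860a) (nat_lit 0) (p (nat_lit 0x8000080000000070686058a) (nat_lit 0) (p (nat_lit 0x10786058502) (nat_lit 0) (p (nat_lit 0x8705850482) (nat_lit 0) (p (nat_lit 0x160004) (nat_lit 0) (p (nat_lit 0x68512) (nat_lit 0) (p (nat_lit 0x58492) (nat_lit 0) (p (nat_lit 0x48412) (nat_lit 0) (p (nat_lit 0x50312) (nat_lit 0) (p (nat_lit 0x40292) (nat_lit 0) (p (nat_lit 0x30212) (nat_lit 0) (p (nat_lit 0x38112) (nat_lit 0) (p (nat_lit 0x28092) (nat_lit 0) (p (nat_lit 0x18012) (nat_lit 0) pn))))))))))))))))) :=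
  Cl.node (nat_lit 0x10a0a8908881a) (nat_lit 1) (by decide +kernel) (ClAll.succ ClAll.zero n23)

def n25 : Cl (O (nat_lit 6)) (R (nat_lit 18641))
    (p (nat_lit 0x108898807871a) (nat_lit 0) (p (nat_lit 0x88090787069a) (nat_lit 0) (p (nat_lit 0x8000080000000080706860a) (nat_lit 0) (p (nat_lit 0x8000080000000070686058a) (nat_lit 0) (p (nat_lit 0x10786058502) (nat_lit 0) (p (nat_lit 0x8705850482) (nat_lit 0) (p (nat_lit 0x160004) (nat_lit 0) (p (nat_lit 0x68512) (nat_lit 0) (p (nat_lit 0x58492) (nat_lit 0) (p (nat_lit 0x48412) (nat_lit 0) (p (nat_lit 0x50312) (nat_lit 0) (p (nat_lit 0x40292) (nat_lit 0) (p (nat_lit 0x30212) (nat_lit 0) (p (nat_lit 0x38112) (nat_lit 0) (p (nat_lit 0x28092) (nat_lit 0) (p (nat_lit 0x18012) (nat_lit 0) pn)))))))))))))))) :=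
  Cl.node (nat_lit 0x898a0888079a) (nat_lit 1) (by decide +kernel) (ClAll.succ ClAll.zero n24)

def n26 : Cl (O (nat_lit 6)) (R (nat_lit 18641))
    (p (nat_lit 0x88090787069a) (nat_lit 0) (p (nat_lit 0x8000080000000080706860a) (nat_lit 0) (p (nat_lit 0x8000080000000070686058a) (nat_lit 0) (p (nat_lit 0x10786058502) (nat_lit 0) (p (nat_lit 0x8705850482) (nat_lit 0) (p (nat_lit 0x160004) (nat_lit 0) (p (nat_lit 0x68512) (nat_lit 0) (p (nat_lit 0x58492) (nat_lit 0) (p (nat_lit 0x48412) (nat_lit 0) (p (nat_lit 0x50312) (nat_lit 0) (p (nat_lit 0x40292) (nat_lit 0) (p (nat_lit 0x30212) (nat_lit 0) (p (nat_lit 0x38112) (nat_lit 0) (p (nat_lit 0x28092) (nat_lit 0) (p (nat_lit 0x18012) (nat_lit 0) pn))))))))))))))) :=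
  Cl.node (nat_lit 0x108898807871a) (nat_lit 1) (by decide +kernel) (ClAll.succ ClAll.zero n25)

def n27 : Cl (O (nat_lit 6)) (R (nat_lit 18641))
    (p (nat_lit 0x8000080000000080706860a) (nat_lit 0) (p (nat_lit 0x8000080000000070686058a) (nat_lit 0) (p (nat_lit 0x10786058502) (nat_lit 0) (p (nat_lit 0x8705850482) (nat_lit 0) (p (nat_lit 0x160004) (nat_lit 0) (p (nat_lit 0x68512) (nat_lit 0) (p (nat_lit 0x58492) (nat_lit 0) (p (nat_lit 0x48412) (nat_lit 0) (p (nat_lit 0x50312) (nat_lit 0) (p (nat_lit 0x40292) (nat_lit 0) (p (nat_lit 0x30212) (nat_lit 0) (p (nat_lit 0x38112) (nat_lit 0) (p (nat_lit 0x28092) (nat_lit 0) (p (nat_lit 0x18012) (nat_lit 0) pn)))))))))))))) :=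
  Cl.node (nat_lit 0x88090787069a) (nat_lit 1) (by decide +kernel) (ClAll.succ ClAll.zero n26)

def n28 : Cl (O (nat_lit 6)) (R (nat_lit 18641))
    (p (nat_lit 0x8000080000000070686058a) (nat_lit 0) (p (nat_lit 0x10786058502) (nat_lit 0) (p (nat_lit 0x8705850482) (nat_lit 0) (p (nat_lit 0x160004) (nat_lit 0) (p (nat_lit 0x68512) (nat_lit 0) (p (nat_lit 0x58492) (nat_lit 0) (p (nat_lit 0x48412) (nat_lit 0) (p (nat_lit 0x50312) (nat_lit 0) (p (nat_lit 0x40292) (nat_lit 0) (p (nat_lit 0x30212) (nat_lit 0) (p (nat_lit 0x38112) (nat_lit 0) (p (nat_lit 0x28092) (nat_lit 0) (p (nat_lit 0x18012) (nat_lit 0) pn))))))))))))) :=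
  Cl.node (nat_lit 0x8000080000000080706860a) (nat_lit 1) (by decide +kernel) (ClAll.succ ClAll.zero n27)

def n29 : Cl (O (nat_lit 6)) (R (nat_lit 18641))
    (p (nat_lit 0x10786058502) (nat_lit 0) (p (nat_lit 0x8705850482) (nat_lit 0) (p (nat_lit 0x160004) (nat_lit 0) (p (nat_lit 0x68512) (nat_lit 0) (p (nat_lit 0x58492) (nat_lit 0) (p (nat_lit 0x48412) (nat_lit 0) (p (nat_lit 0x50312) (nat_lit 0) (p (nat_lit 0x40292) (nat_lit 0) (p (nat_lit 0x30212) (nat_lit 0) (p (nat_lit 0x38112) (nat_lit 0) (p (nat_lit 0x28092) (nat_lit 0) (p (nat_lit 0x18012) (nat_lit 0) pn)))))))))))) :=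
  Cl.node (nat_lit 0x8000080000000070686058a) (nat_lit 1) (by decide +kernel) (ClAll.succ ClAll.zero n28)

def n30 : Cl (O (nat_lit 6)) (R (nat_lit 18641))
    (p (nat_lit 0x8705850482) (nat_lit 0) (p (nat_lit 0x160004) (nat_lit 0) (p (nat_lit 0x68512) (nat_lit 0) (p (nat_lit 0x58492) (nat_lit 0) (p (nat_lit 0x48412) (nat_lit 0) (p (nat_lit 0x50312) (nat_lit 0) (p (nat_lit 0x40292) (nat_lit 0) (p (nat_lit 0x30212) (nat_lit 0) (p (nat_lit 0x38112) (nat_lit 0) (p (nat_lit 0x28092) (nat_lit 0) (p (nat_lit 0x18012) (nat_lit 0) pn))))))))))) :=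
  Cl.node (nat_lit 0x10786058502) (nat_lit 1) (by decide +kernel) (ClAll.succ ClAll.zero n29)

def n31 : Cl (O (nat_lit 6)) (R (nat_lit 18641))
    (p (nat_lit 0x160004) (nat_lit 0) (p (nat_lit 0x68512) (nat_lit 0) (p (nat_lit 0x58492) (nat_lit 0) (p (nat_lit 0x48412) (nat_lit 0) (p (nat_lit 0x50312) (nat_lit 0) (p (nat_lit 0x40292) (nat_lit 0) (p (nat_lit 0x30212) (nat_lit 0) (p (nat_lit 0x38112) (nat_lit 0) (p (nat_lit 0x28092) (nat_lit 0) (p (nat_lit 0x18012) (nat_lit 0) pn)))))))))) :=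
  Cl.node (nat_lit 0x8705850482) (nat_lit 1) (by decide +kernel) (ClAll.succ ClAll.zero n30)

def n32 : Cl (O (nat_lit 6)) (R (nat_lit 18641))
    (p (nat_lit 0x68512) (nat_lit 0) (p (nat_lit 0x58492) (nat_lit 0) (p (nat_lit 0x48412) (nat_lit 0) (p (nat_lit 0x50312) (nat_lit 0) (p (nat_lit 0x40292) (nat_lit 0) (p (nat_lit 0x30212) (nat_lit 0) (p (nat_lit 0x38112) (nat_lit 0) (p (nat_lit 0x28092) (nat_lit 0) (p (nat_lit 0x18012) (nat_lit 0) pn))))))))) :=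
  Cl.node (nat_lit 0x160004) (nat_lit 2) (by decide +kernel) (ClAll.succ (ClAll.succ ClAll.zero n31) s25)

def n33 : Cl (O (nat_lit 6)) (R (nat_lit 18641))
    (p (nat_lit 0x58492) (nat_lit 0) (p (nat_lit 0x48412) (nat_lit 0) (p (nat_lit 0x50312) (nat_lit 0) (p (nat_lit 0x40292) (nat_lit 0) (p (nat_lit 0x30212) (nat_lit 0) (p (nat_lit 0x38112) (nat_lit 0) (p (nat_lit 0x28092) (nat_lit 0) (p (nat_lit 0x18012) (nat_lit 0) pn)))))))) :=
  Cl.node (nat_lit 0x68512) (nat_lit 1) (by decide +kernel) (ClAll.succ ClAll.zero n32)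

def n34 : Cl (O (nat_lit 6)) (R (nat_lit 18641))
    (p (nat_lit 0x48412) (nat_lit 0) (p (nat_lit 0x50312) (nat_lit 0) (p (nat_lit 0x40292) (nat_lit 0) (p (nat_lit 0x30212) (nat_lit 0) (p (nat_lit 0x38112) (nat_lit 0) (p (nat_lit 0x28092) (nat_lit 0) (p (nat_lit 0x18012) (nat_lit 0) pn))))))) :=
  Cl.node (nat_lit 0x58492) (nat_lit 1) (by decide +kernel) (ClAll.succ ClAll.zero n33)

def n35 : Cl (O (nat_lit 6)) (R (nat_lit 18641))
    (p (nat_lit 0x50312) (nat_lit 0) (p (nat_lit 0x40292) (nat_lit 0) (p (nat_lit 0x30212) (nat_lit 0) (p (nat_lit 0x38112) (nat_lit 0) (p (nat_lit 0x28092) (nat_lit 0) (p (nat_lit 0x18012) (nat_lit 0) pn)))))) :=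
  Cl.node (nat_lit 0x48412) (nat_lit 1) (by decide +kernel) (ClAll.succ ClAll.zero n34)

def n36 : Cl (O (nat_lit 6)) (R (nat_lit 18641))
    (p (nat_lit 0x40292) (nat_lit 0) (p (nat_lit 0x30212) (nat_lit 0) (p (nat_lit 0x38112) (nat_lit 0) (p (nat_lit 0x28092) (nat_lit 0) (p (nat_lit 0x18012) (nat_lit 0) pn))))) :=
  Cl.node (nat_lit 0x50312) (nat_lit 1) (by decide +kernel) (ClAll.succ ClAll.zero n35)

def n37 : Cl (O (nat_lit 6)) (R (nat_lit 18641))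
    (p (nat_lit 0x30212) (nat_lit 0) (p (nat_lit 0x38112) (nat_lit 0) (p (nat_lit 0x28092) (nat_lit 0) (p (nat_lit 0x18012) (nat_lit 0) pn)))) :=
  Cl.node (nat_lit 0x40292) (nat_lit 1) (by decide +kernel) (ClAll.succ ClAll.zero n36)

def n38 : Cl (O (nat_lit 6)) (R (nat_lit 18641))
    (p (nat_lit 0x38112) (nat_lit 0) (p (nat_lit 0x28092) (nat_lit 0) (p (nat_lit 0x18012) (nat_lit 0) pn))) :=
  Cl.node (nat_lit 0x30212) (nat_lit 1) (by decide +kernel) (ClAll.succ ClAll.zero n37)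

def n39 : Cl (O (nat_lit 6)) (R (nat_lit 18641))
    (p (nat_lit 0x28092) (nat_lit 0) (p (nat_lit 0x18012) (nat_lit 0) pn)) :=
  Cl.node (nat_lit 0x38112) (nat_lit 1) (by decide +kernel) (ClAll.succ ClAll.zero n38)

def n40 : Cl (O (nat_lit 6)) (R (nat_lit 18641))
    (p (nat_lit 0x18012) (nat_lit 0) pn) :=
  Cl.node (nat_lit 0x28092) (nat_lit 1) (by decide +kernel) (ClAll.succ ClAll.zero n39)

def n41 : Cl (O (nat_lit 6)) (R (nat_lit 18641))
    pn :=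
  Cl.node (nat_lit 0x18012) (nat_lit 1) (by decide +kernel) (ClAll.succ ClAll.zero n40)

theorem top : Cl (O (nat_lit 6)) (R (nat_lit 18641)) pn := n41

end Pool.Agent.Gen.F5.X123DDCm6
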